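import Pool.Agent.helper32.EB.Defs2

/-! # Project EB, module LX: exit from the outer disc -/

open MeasureTheory ProbabilityTheory Filter Topology
open scoped ENNReal NNReal

namespace Pool.Agent.helper32.EB

theorem eN_meas (G : Geo) (ν : Measure ℂ) [SFinite ν] (N : ℕ) : Measurable (eN G ν N) := by
  classical
  have hs : MeasurableSet {z : ℂ | ‖z‖ < G.R'} := measurableSet_lt measurable_norm measurable_const
  induction N with
  | zero =>
    have : eN G ν 0 = fun z => if ‖z‖ < G.R' then 1 else 0 := by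
      funext z
      simp [eN]
    rw [this]
    exact Measurable.ite hs measurable_const measurable_const
  | succ N ih =>
    have : eN G ν (N + 1) = fun z => if ‖z‖ < G.R' then ∫⁻ y, eN G ν N (z + y) ∂ν else 0 := by
      funext z
      simp [eN]
    rw [this]
    refine Measurable.ite hs ?_ measurable_const
    have h2 : Measurable (fun p : ℂ × ℂ => eN G ν N (p.1 + p.2)) :=
      ih.comp (measurable_fst.add measurable_snd)
    exact Measurable.lintegral_prod_right' h2

theorem LX_le_one (G : Geo) (ν : Measure ℂ) [IsProbabilityMeasure ν] (N : ℕ) (z : ℂ) :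
    eN G ν N z ≤ 1 := by
  induction N generalizing z with
  | zero =>
    rw [eN]
    split_ifs <;> simp
  | succ N ih =>
    rw [eN]
    split_ifs
    · calc ∫⁻ y, eN G ν N (z + y) ∂ν ≤ ∫⁻ _, 1 ∂ν := lintegral_mono fun y => ih _
        _ = 1 := by simp
    · simp

theorem LX_anti (G : Geo) (ν : Measure ℂ) [IsProbabilityMeasure ν] (N : ℕ) (z : ℂ) :
    eN G ν (N + 1) z ≤ eN G ν N z := by
  induction N generalizing z with
  | zero =>
    by_cases hz : ‖z‖ < G.R'
    · have : eN G ν 0 z = 1 := by rw [eN, if_pos hz]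
      rw [this]
      exact LX_le_one G ν _ z
    · have h1 : eN G ν (0 + 1) z = 0 := by rw [eN, if_neg hz]
      rw [h1]
      simp
  | succ N ih =>
    rw [eN, eN]
    by_cases hz : ‖z‖ < G.R'
    · rw [if_pos hz, if_pos hz]
      exact lintegral_mono fun y => ih _
    · rw [if_neg hz, if_neg hz]

theorem LX_int_zero {ν : Measure ℂ} {h : ℝ} (hν : RotStep ν h) : ∫ y, y ∂ν = 0 := by
  have h1 : ν.map (fun y => (-1 : ℂ) * y) = ν := hν.rot (-1) (by simp)
  have h2 : ∫ y, y ∂ν = ∫ y, (-1 : ℂ) * y ∂ν := by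
    conv_lhs => rw [← h1]
    rw [integral_map (by fun_prop) (by fun_prop)]
  have h3 : ∫ y, (-1 : ℂ) * y ∂ν = - ∫ y, y ∂ν := by
    rw [integral_const_mul]
    ring
  rw [h3] at h2
  exact self_eq_neg.1 h2

theorem LX_integrable {ν : Measure ℂ} {h : ℝ} (hν : RotStep ν h) (f : ℂ → ℝ) (hf : Measurable f)
    (C : ℝ) (hC : ∀ y, ‖y‖ < h → ‖f y‖ ≤ C) : Integrable f ν := by
  have := hν.prob
  refine Integrable.of_bound hf.aestronglyMeasurable C ?_
  filter_upwards [hν.bdd] with y hy using hC y hy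

theorem LX_second {ν : Measure ℂ} {h : ℝ} (hν : RotStep ν h) (z : ℂ) :
    Integrable (fun y => ‖z + y‖ ^ 2) ν ∧
      ∫ y, ‖z + y‖ ^ 2 ∂ν = ‖z‖ ^ 2 + ∫ y, ‖y‖ ^ 2 ∂ν := by
  have := hν.prob
  have hpt : ∀ y : ℂ, ‖z + y‖ ^ 2 = ‖z‖ ^ 2 + (2 * (z.re * y.re + z.im * y.im)) + ‖y‖ ^ 2 := by
    intro y
    simp only [← Complex.normSq_eq_norm_sq, Complex.normSq_apply, Complex.add_re, Complex.add_im]
    ring
  have hre : ∀ y : ℂ, ‖y‖ < h → |y.re| ≤ h := fun y hy => (Complex.abs_re_le_norm y).trans hy.le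
  have him : ∀ y : ℂ, ‖y‖ < h → |y.im| ≤ h := fun y hy => (Complex.abs_im_le_norm y).trans hy.le
  have i1 : Integrable (fun y : ℂ => y.re) ν :=
    LX_integrable hν _ Complex.measurable_re h fun y hy => by
      rw [Real.norm_eq_abs]; exact hre y hy
  have i2 : Integrable (fun y : ℂ => y.im) ν :=
    LX_integrable hν _ Complex.measurable_im h fun y hy => by
      rw [Real.norm_eq_abs]; exact him y hy
  have i3 : Integrable (fun y : ℂ => ‖y‖ ^ 2) ν :=
    LX_integrable hν _ (by fun_prop) (h ^ 2) fun y hy => by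
      rw [Real.norm_eq_abs, abs_of_nonneg (by positivity)]
      exact pow_le_pow_left₀ (norm_nonneg _) hy.le 2
  have iy : Integrable (fun y : ℂ => y) ν := by
    refine Integrable.of_bound (by fun_prop) h ?_
    filter_upwards [hν.bdd] with y hy using hy.le
  have r0 : ∫ y, y.re ∂ν = 0 := by
    have := integral_re (𝕜 := ℂ) iy
    have h0 := LX_int_zero hν
    rw [h0] at this
    simpa using this
  have m0 : ∫ y, y.im ∂ν = 0 := by
    have := integral_im (𝕜 := ℂ) iy
    have h0 := LX_int_zero hν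
    rw [h0] at this
    simpa using this
  have i4 : Integrable (fun y : ℂ => 2 * (z.re * y.re + z.im * y.im)) ν :=
    ((i1.const_mul z.re).add (i2.const_mul z.im)).const_mul 2
  constructor
  · simp only [hpt]
    exact ((integrable_const _).add i4).add i3
  · simp only [hpt]
    have e1 : ∫ y : ℂ, (‖z‖ ^ 2 + 2 * (z.re * y.re + z.im * y.im) + ‖y‖ ^ 2) ∂ν =
        ∫ y : ℂ, (‖z‖ ^ 2 + 2 * (z.re * y.re + z.im * y.im)) ∂ν + ∫ y : ℂ, ‖y‖ ^ 2 ∂ν :=
      integral_add ((integrable_const _).add i4) i3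
    have e2 : ∫ y : ℂ, (‖z‖ ^ 2 + 2 * (z.re * y.re + z.im * y.im)) ∂ν =
        ∫ _y : ℂ, ‖z‖ ^ 2 ∂ν + ∫ y : ℂ, 2 * (z.re * y.re + z.im * y.im) ∂ν :=
      integral_add (integrable_const _) i4
    have e3 : ∫ y : ℂ, 2 * (z.re * y.re + z.im * y.im) ∂ν = 0 := by
      rw [integral_const_mul, integral_add (i1.const_mul z.re) (i2.const_mul z.im),
        integral_const_mul, integral_const_mul, r0, m0]
      simp
    rw [e1, e2, e3]
    simp

/-- the sum of the survival probabilities -/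
theorem LX_sum (G : Geo) (hG : G.OK) {ν : Measure ℂ} (hν : RotStep ν G.h) (N : ℕ) (z : ℂ)
    (hz : ‖z‖ < G.R' + G.h) :
    ENNReal.ofReal (∫ y, ‖y‖ ^ 2 ∂ν) * ∑ j ∈ Finset.range N, eN G ν j z ≤
      ENNReal.ofReal ((G.R' + G.h) ^ 2 - ‖z‖ ^ 2) := by
  have := hν.prob
  induction N generalizing z with
  | zero => simp
  | succ N ih =>
    rw [Finset.sum_range_succ']
    by_cases hz' : ‖z‖ < G.R'
    · have h1 : ∀ j, eN G ν (j + 1) z = ∫⁻ y, eN G ν j (z + y) ∂ν := by
        intro j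
        rw [eN, if_pos hz']
      have h0 : eN G ν 0 z = 1 := by rw [eN, if_pos hz']
      simp only [h1, h0]
      have hme : ∀ j, Measurable (fun y => eN G ν j (z + y)) := fun j =>
        (eN_meas G ν j).comp (measurable_const.add measurable_id)
      have hms : Measurable (fun y => ∑ j ∈ Finset.range N, eN G ν j (z + y)) :=
        Finset.measurable_sum _ fun j _ => hme j
      rw [← lintegral_finsetSum _ (fun j _ => hme j), mul_add, mul_one, ← lintegral_const_mul _ hms]
      have hb : ∫⁻ y, ENNReal.ofReal (∫ y, ‖y‖ ^ 2 ∂ν) * ∑ j ∈ Finset.range N, eN G ν j (z + y) ∂ν ≤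
          ∫⁻ y, ENNReal.ofReal ((G.R' + G.h) ^ 2 - ‖z + y‖ ^ 2) ∂ν := by
        refine lintegral_mono_ae ?_
        filter_upwards [hν.bdd] with y hy
        refine ih _ ?_
        calc ‖z + y‖ ≤ ‖z‖ + ‖y‖ := norm_add_le _ _
          _ < G.R' + G.h := by linarith
      obtain ⟨hint, hval⟩ := LX_second hν z
      have hc : ∫⁻ y, ENNReal.ofReal ((G.R' + G.h) ^ 2 - ‖z + y‖ ^ 2) ∂ν =
          ENNReal.ofReal ((G.R' + G.h) ^ 2 - ‖z‖ ^ 2 - ∫ y, ‖y‖ ^ 2 ∂ν) := by
        have hint2 : Integrable (fun y => (G.R' + G.h) ^ 2 - ‖z + y‖ ^ 2) ν :=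
          (integrable_const _).sub hint
        rw [← ofReal_integral_eq_lintegral_ofReal hint2]
        · rw [integral_sub (integrable_const _) hint, hval]
          simp only [integral_const, probReal_univ, one_smul]
          congr 1
          ring
        · filter_upwards [hν.bdd] with y hy
          have : ‖z + y‖ < G.R' + G.h := by
            calc ‖z + y‖ ≤ ‖z‖ + ‖y‖ := norm_add_le _ _
              _ < G.R' + G.h := by linarith
          simp only [Pi.zero_apply]
          nlinarith [norm_nonneg (z + y)]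
      have hnn : (0 : ℝ) ≤ ∫ y, ‖y‖ ^ 2 ∂ν := hν.nondeg.le
      have hpos : 0 ≤ (G.R' + G.h) ^ 2 - ‖z‖ ^ 2 - ∫ y, ‖y‖ ^ 2 ∂ν := by
        have h2 : 0 ≤ ∫ y, ((G.R' + G.h) ^ 2 - ‖z + y‖ ^ 2) ∂ν := by
          refine integral_nonneg_of_ae ?_
          filter_upwards [hν.bdd] with y hy
          have : ‖z + y‖ < G.R' + G.h := by
            calc ‖z + y‖ ≤ ‖z‖ + ‖y‖ := norm_add_le _ _
              _ < G.R' + G.h := by linarith
          simp only [Pi.zero_apply]
          nlinarith [norm_nonneg (z + y)]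
        rw [integral_sub (integrable_const _) hint, hval] at h2
        simp only [integral_const, probReal_univ, one_smul] at h2
        linarith
      calc ∫⁻ y, ENNReal.ofReal (∫ y, ‖y‖ ^ 2 ∂ν) * ∑ j ∈ Finset.range N, eN G ν j (z + y) ∂ν +
            ENNReal.ofReal (∫ y, ‖y‖ ^ 2 ∂ν)
          ≤ ENNReal.ofReal ((G.R' + G.h) ^ 2 - ‖z‖ ^ 2 - ∫ y, ‖y‖ ^ 2 ∂ν) +
            ENNReal.ofReal (∫ y, ‖y‖ ^ 2 ∂ν) := by
              rw [← hc]
              exact add_le_add hb le_rfl
        _ = ENNReal.ofReal ((G.R' + G.h) ^ 2 - ‖z‖ ^ 2) := by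
              rw [← ENNReal.ofReal_add hpos hnn]
              congr 1
              ring
    · have h1 : ∀ j, eN G ν j z = 0 := by
        intro j
        cases j with
        | zero => rw [eN, if_neg hz']
        | succ j => rw [eN, if_neg hz']
      simp [h1]

theorem eN_bound (G : Geo) (hG : G.OK) {ν : Measure ℂ} (hν : RotStep ν G.h) (z : ℂ) (N : ℕ) :
    N * ENNReal.ofReal (∫ y, ‖y‖ ^ 2 ∂ν) * eN G ν N z ≤ ENNReal.ofReal ((G.R' + G.h) ^ 2) := by
  have := hν.prob
  by_cases hz : ‖z‖ < G.R'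
  · have hanti : Antitone fun N => eN G ν N z := antitone_nat_of_succ_le fun N => LX_anti G ν N z
    have h1 : N * eN G ν N z ≤ ∑ j ∈ Finset.range N, eN G ν j z := by
      calc N * eN G ν N z = ∑ _j ∈ Finset.range N, eN G ν N z := by simp
        _ ≤ ∑ j ∈ Finset.range N, eN G ν j z :=
          Finset.sum_le_sum fun j hj => hanti (Finset.mem_range.1 hj).le
    have h2 := LX_sum G hG hν N z (by linarith [hG.hpos])
    calc N * ENNReal.ofReal (∫ y, ‖y‖ ^ 2 ∂ν) * eN G ν N z
        = ENNReal.ofReal (∫ y, ‖y‖ ^ 2 ∂ν) * (N * eN G ν N z) := by ring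
      _ ≤ ENNReal.ofReal (∫ y, ‖y‖ ^ 2 ∂ν) * ∑ j ∈ Finset.range N, eN G ν j z := by gcongr
      _ ≤ ENNReal.ofReal ((G.R' + G.h) ^ 2 - ‖z‖ ^ 2) := h2
      _ ≤ ENNReal.ofReal ((G.R' + G.h) ^ 2) := ENNReal.ofReal_le_ofReal (by nlinarith [norm_nonneg z])
  · have h1 : eN G ν N z = 0 := by
      cases N with
      | zero => rw [eN, if_neg hz]
      | succ j => rw [eN, if_neg hz]
    simp [h1]

end Pool.Agent.helper32.EB
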