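import Pool.Agent.helper97.BT.NA

/-! # Project EB, module NB: numbers of crossings outside their windows -/

open MeasureTheory ProbabilityTheory Filter Topology
open scoped ENNReal NNReal

namespace Pool.Agent.helper32.EB

theorem NB_term (f g : ℝ → ℝ) (n : ℝ → ℕ) (A B v a u c : ℝ) (hA : 0 < A) (hB : 0 < B) (hu : 0 < u)
    (hf : Tendsto f atTop (𝓝 A)) (hg : Tendsto g atTop (𝓝 B))
    (hn : Tendsto (fun L => (n L : ℝ) / L) atTop (𝓝 v))
    (hneg : -a * Real.log u + v * (Real.log A - Real.log B) < 0) (hc : 0 < c) :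
    ∀ᶠ L : ℝ in atTop, u ^ (-(a * L)) * f L ^ n L ≤ c * g L ^ n L := by
  have hlf : Tendsto (fun L => Real.log (f L)) atTop (𝓝 (Real.log A)) :=
    hf.log hA.ne'
  have hlg : Tendsto (fun L => Real.log (g L)) atTop (𝓝 (Real.log B)) :=
    hg.log hB.ne'
  have hbr : Tendsto (fun L => -a * Real.log u + (n L : ℝ) / L * (Real.log (f L) - Real.log (g L)))
      atTop (𝓝 (-a * Real.log u + v * (Real.log A - Real.log B))) :=
    tendsto_const_nhds.add (hn.mul (hlf.sub hlg))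
  have hbot : Tendsto (fun L : ℝ => L * (-a * Real.log u +
      (n L : ℝ) / L * (Real.log (f L) - Real.log (g L)))) atTop atBot :=
    tendsto_id.atTop_mul_neg hneg hbr
  have hev : ∀ᶠ L : ℝ in atTop, L * (-a * Real.log u +
      (n L : ℝ) / L * (Real.log (f L) - Real.log (g L))) ≤ Real.log c :=
    hbot.eventually_le_atBot _
  filter_upwards [hev, hf.eventually_const_lt hA, hg.eventually_const_lt hB,
    eventually_gt_atTop (0 : ℝ)] with L h1 h2 h3 h4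
  have e1 : L * (-a * Real.log u + (n L : ℝ) / L * (Real.log (f L) - Real.log (g L))) =
      -(a * L) * Real.log u + n L * (Real.log (f L) - Real.log (g L)) := by
    field_simp
  rw [e1] at h1
  rw [← Real.log_le_log_iff (by positivity) (by positivity), Real.log_mul (by positivity)
    (by positivity), Real.log_mul (by positivity) (by positivity), Real.log_rpow hu,
    Real.log_pow, Real.log_pow]
  linarith

theorem NB_slope_lt (G : ℝ → ℝ) (G' : ℝ) (h : HasDerivAt G G' 1) (hneg : G' < 0) :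
    ∀ᶠ u in 𝓝[>] (1 : ℝ), G u < G 1 := by
  have h1 := (hasDerivAt_iff_tendsto_slope.1 h).mono_left
    (nhdsWithin_mono (1 : ℝ) (fun x (hx : 1 < x) => (ne_of_gt hx : x ≠ 1)))
  have h2 := h1.eventually_lt_const hneg
  filter_upwards [h2, self_mem_nhdsWithin] with u hu hu1
  rw [Set.mem_Ioi] at hu1
  rw [slope_def_field] at hu
  have h3 : 0 < u - 1 := by linarith
  rw [div_neg_iff] at hu
  rcases hu with ⟨_, h5⟩ | ⟨h5, _⟩
  · linarith
  · linarith

theorem NB_slope_gt (G : ℝ → ℝ) (G' : ℝ) (h : HasDerivAt G G' 1) (hpos : 0 < G') :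
    ∀ᶠ u in 𝓝[<] (1 : ℝ), G u < G 1 := by
  have h1 := (hasDerivAt_iff_tendsto_slope.1 h).mono_left
    (nhdsWithin_mono (1 : ℝ) (fun x (hx : x < 1) => (ne_of_lt hx : x ≠ 1)))
  have h2 := h1.eventually_const_lt hpos
  filter_upwards [h2, self_mem_nhdsWithin] with u hu hu1
  rw [Set.mem_Iio] at hu1
  rw [slope_def_field] at hu
  have h3 : u - 1 < 0 := by linarith
  rw [div_pos_iff] at hu
  rcases hu with ⟨_, h5⟩ | ⟨h5, _⟩
  · linarith
  · linarith

theorem NB_deriv (ζ σ κ p q S0 S1 v b : ℝ) (hσ : 0 < σ) (hζ : 0 < ζ) (hκ : ζ < κ)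
    (h1 : p - q = σ) (h2 : S1 * p - q * S0 = σ * κ) (h3 : κ - S0 = p) :
    HasDerivAt (fun u => -b * Real.log u +
      v * Real.log (1 - (p - u * q) / (S1 * p - u * q * S0) * ζ))
      (-b + v * ζ * p * q / (σ * κ * (κ - ζ))) 1 := by
  have hκ0 : 0 < κ := by linarith
  have hκζ : κ - ζ ≠ 0 := by
    have : 0 < κ - ζ := by linarith
    exact this.ne'
  have hden : S1 * p - 1 * q * S0 ≠ 0 := by
    rw [one_mul, h2]
    positivity
  have hval : 1 - (p - 1 * q) / (S1 * p - 1 * q * S0) * ζ = (κ - ζ) / κ := by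
    rw [one_mul, h1, h2]
    field_simp
  have d1 : HasDerivAt (fun u : ℝ => p - u * q) (-(1 * q)) 1 :=
    ((hasDerivAt_id (1 : ℝ)).mul_const q).const_sub p
  have d2 : HasDerivAt (fun u : ℝ => S1 * p - u * q * S0) (-(1 * q * S0)) 1 :=
    (((hasDerivAt_id (1 : ℝ)).mul_const q).mul_const S0).const_sub (S1 * p)
  have d3 := ((d1.div d2 hden).mul_const ζ).const_sub 1
  have hne : 1 - (p - 1 * q) / (S1 * p - 1 * q * S0) * ζ ≠ 0 := by
    rw [hval]
    positivity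
  have d4 := d3.log hne
  have d5 := ((Real.hasDerivAt_log (one_ne_zero (α := ℝ))).const_mul (-b)).add (d4.const_mul v)
  refine d5.congr_deriv ?_
  simp only [Pi.div_apply]
  rw [hval]
  have e1 : S1 * p - 1 * q * S0 = σ * κ := by rw [one_mul, h2]
  have e2 : p - 1 * q = σ := by rw [one_mul, h1]
  rw [e1, e2]
  have e3 : S0 = κ - p := by linarith
  rw [e3]
  field_simp
  ring

/-- the one step factor divided by its limit, for the weight `u` -/
theorem NB_lim (ζ : ℝ) (hζ : 0 < ζ) (hζ' : ζ ≤ 1 / 2000) (K : ℕ) (hK : 6 ≤ K) (k : ℕ)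
    (hk : 1 ≤ k) (hkK : k + 1 ≤ K) (u : ℝ) (hu : 0 < u)
    (hu1 : u * ((K - k : ℝ) * ((1 - 100 * ζ) / K)) < (K - k + 1 : ℝ) * ((1 - 100 * ζ) / K)) :
    Tendsto (fun L => 1 - c1 (geoL ζ K L) k u * sr (geoL ζ K L)) atTop
      (𝓝 (1 - ((K - k + 1 : ℝ) * ((1 - 100 * ζ) / K) - u * ((K - k : ℝ) * ((1 - 100 * ζ) / K))) /
        ((ζ + k * ((1 - 100 * ζ) / K)) * ((K - k + 1 : ℝ) * ((1 - 100 * ζ) / K)) -
          u * ((K - k : ℝ) * ((1 - 100 * ζ) / K)) * (ζ + (k - 1 : ℝ) * ((1 - 100 * ζ) / K))) * ζ)) ∧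
    0 < 1 - ((K - k + 1 : ℝ) * ((1 - 100 * ζ) / K) - u * ((K - k : ℝ) * ((1 - 100 * ζ) / K))) /
        ((ζ + k * ((1 - 100 * ζ) / K)) * ((K - k + 1 : ℝ) * ((1 - 100 * ζ) / K)) -
          u * ((K - k : ℝ) * ((1 - 100 * ζ) / K)) * (ζ + (k - 1 : ℝ) * ((1 - 100 * ζ) / K))) * ζ := by
  have hK0 : (0 : ℝ) < K := by
    have : (6 : ℝ) ≤ K := by exact_mod_cast hK
    linarith
  set σ : ℝ := (1 - 100 * ζ) / K with hσd
  have hσ : 0 < σ := by
    apply div_pos _ hK0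
    linarith
  have hk1 : (1 : ℝ) ≤ k := by exact_mod_cast hk
  have hkK' : (k : ℝ) + 1 ≤ K := by exact_mod_cast hkK
  set p : ℝ := (K - k + 1 : ℝ) * σ with hp
  set q : ℝ := (K - k : ℝ) * σ with hq
  have hq0 : 0 < q := by rw [hq]; apply mul_pos _ hσ; linarith
  have hp0 : 0 < p := by rw [hp]; apply mul_pos _ hσ; linarith
  have hden : 0 < (ζ + k * σ) * p - u * q * (ζ + (k - 1 : ℝ) * σ) := by
    have h1 : u * q * (ζ + (k - 1 : ℝ) * σ) ≤ p * (ζ + (k - 1 : ℝ) * σ) :=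
      mul_le_mul_of_nonneg_right hu1.le (by nlinarith)
    nlinarith
  have t1 := lim_tt ζ hζ hζ' K hK (k - 1) (by omega)
  have t2 := lim_tt ζ hζ hζ' K hK k (by omega)
  have t3 := lim_s1 ζ hζ hζ' K hK k (by omega)
  have t4 := lim_s0 ζ hζ hζ' K hK k hk (by omega)
  have t5 := lim_sr ζ hζ hζ' K hK
  have ecast : ((K : ℝ) - ((k - 1 : ℕ) : ℝ)) * ((1 - 100 * ζ) / K) = p := by
    rw [Nat.cast_sub hk, hp]
    push_cast
    ring
  rw [ecast] at t1
  have hnum := t1.sub (t2.const_mul u)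
  have hdn := (t3.mul t1).sub ((t2.const_mul u).mul t4)
  have hall := ((hnum.div hdn hden.ne').mul t5).const_sub 1
  constructor
  · refine hall.congr' ?_
    filter_upwards [eventually_gt_atTop (0 : ℝ)] with L hL
    simp only [c1, Pi.div_apply]
    have hL0 : L ≠ 0 := hL.ne'
    have e1 : tt (geoL ζ K L) (k - 1) / L - u * (tt (geoL ζ K L) k / L) =
        (tt (geoL ζ K L) (k - 1) - u * tt (geoL ζ K L) k) / L := by
      field_simp
    have e2 : s1 (geoL ζ K L) k / L * (tt (geoL ζ K L) (k - 1) / L) -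
        u * (tt (geoL ζ K L) k / L) * (s0 (geoL ζ K L) k / L) =
        (s1 (geoL ζ K L) k * tt (geoL ζ K L) (k - 1) -
          u * tt (geoL ζ K L) k * s0 (geoL ζ K L) k) / (L * L) := by
      field_simp
    rw [e1, e2]
    by_cases hd0 : s1 (geoL ζ K L) k * tt (geoL ζ K L) (k - 1) -
          u * tt (geoL ζ K L) k * s0 (geoL ζ K L) k = 0
    · rw [hd0]
      simp
    · field_simp
  · have h1 : (p - u * q) / ((ζ + k * σ) * p - u * q * (ζ + (k - 1 : ℝ) * σ)) * ζ < 1 := by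
      rw [div_mul_eq_mul_div, div_lt_one hden]
      have h2 : u * q * ((k - 1 : ℝ) * σ) ≤ p * ((k - 1 : ℝ) * σ) :=
        mul_le_mul_of_nonneg_right hu1.le (by nlinarith)
      nlinarith
    linarith

theorem err_small (ζ γA : ℝ) (hζ : 0 < ζ) (hζ' : ζ ≤ 1 / 2000) (hγ : 0 < γA) (K : ℕ)
    (hK : 6 ≤ K) : ∃ uH uL : ℕ → ℝ,
      ∀ᶠ L : ℝ in atTop,
        (∀ k, 1 ≤ k → k + 1 ≤ K → 1 ≤ uH k ∧
          uH k * tt (geoL ζ K L) k < tt (geoL ζ K L) (k - 1)) ∧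
        (∀ k, 1 ≤ k → k + 1 ≤ K → 0 < uL k ∧ uL k ≤ 1) ∧
        ∑ k ∈ Finset.Ico 1 K, (uH k ^ (-((1 + ζ) * DL ζ γA K k * L)) *
            (1 - c1 (geoL ζ K L) k (uH k) * sr (geoL ζ K L)) ^ (nL ζ γA L) +
          uL k ^ (-((1 - ζ) * DL ζ γA K k * L)) *
            (1 - c1 (geoL ζ K L) k (uL k) * sr (geoL ζ K L)) ^ (nL ζ γA L)) ≤
          cmx (geoL ζ K L) ^ (nL ζ γA L) / 2 := by
  have hK6 : (6 : ℝ) ≤ K := by exact_mod_cast hK
  have hK0 : (0 : ℝ) < K := by linarith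
  have hκ : 0 < 1 - 99 * ζ := by linarith
  have hB : 0 < 1 - ζ / (1 - 99 * ζ) := by
    have : ζ / (1 - 99 * ζ) < 1 := by
      rw [div_lt_one hκ]
      linarith
    linarith
  obtain ⟨hcx, -⟩ := lim_cm ζ hζ hζ' K hK
  have hn := lim_nL ζ γA hζ hγ
  -- choice of the weights for one level
  have key : ∀ k, ∃ uh ul : ℝ, 1 ≤ k → k + 1 ≤ K →
      (1 ≤ uh ∧ (∀ᶠ L : ℝ in atTop, uh * tt (geoL ζ K L) k < tt (geoL ζ K L) (k - 1)) ∧
        ∀ᶠ L : ℝ in atTop, uh ^ (-((1 + ζ) * DL ζ γA K k * L)) *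
            (1 - c1 (geoL ζ K L) k uh * sr (geoL ζ K L)) ^ (nL ζ γA L) ≤
          1 / (4 * K) * cmx (geoL ζ K L) ^ (nL ζ γA L)) ∧
      ((0 < ul ∧ ul ≤ 1) ∧
        ∀ᶠ L : ℝ in atTop, ul ^ (-((1 - ζ) * DL ζ γA K k * L)) *
            (1 - c1 (geoL ζ K L) k ul * sr (geoL ζ K L)) ^ (nL ζ γA L) ≤
          1 / (4 * K) * cmx (geoL ζ K L) ^ (nL ζ γA L)) := by
    intro k
    by_cases hk : 1 ≤ k ∧ k + 1 ≤ K
    swap
    · exact ⟨1, 1, fun h1 h2 => absurd ⟨h1, h2⟩ hk⟩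
    obtain ⟨hk1, hk2⟩ := hk
    have hk1' : (1 : ℝ) ≤ k := by exact_mod_cast hk1
    have hkK' : (k : ℝ) + 1 ≤ K := by exact_mod_cast hk2
    have L1 := NB_lim ζ hζ hζ' K hK k hk1 hk2
    have t1 := lim_tt ζ hζ hζ' K hK (k - 1) (by omega)
    have t2 := lim_tt ζ hζ hζ' K hK k (by omega)
    have ecast : ((K : ℝ) - ((k - 1 : ℕ) : ℝ)) = K - k + 1 := by
      rw [Nat.cast_sub hk1]
      push_cast
      ring
    rw [ecast] at t1
    set σ : ℝ := (1 - 100 * ζ) / K with hσd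
    have hσ : 0 < σ := by
      apply div_pos _ hK0
      linarith
    set p : ℝ := (K - k + 1 : ℝ) * σ with hp
    set q : ℝ := (K - k : ℝ) * σ with hq
    have hq0 : 0 < q := by rw [hq]; apply mul_pos _ hσ; linarith
    have hp0 : 0 < p := by rw [hp]; apply mul_pos _ hσ; linarith
    have hKσ : K * σ = 1 - 100 * ζ := by
      rw [hσd]
      field_simp
    have hpq : p - q = σ := by rw [hp, hq]; ring
    have hS : (ζ + k * σ) * p - q * (ζ + (k - 1 : ℝ) * σ) = σ * (1 - 99 * ζ) := by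
      have : (1 - 99 * ζ) = ζ + K * σ := by rw [hKσ]; ring
      rw [this, hp, hq]
      ring
    have hκS : (1 - 99 * ζ) - (ζ + (k - 1 : ℝ) * σ) = p := by
      have : (1 - 99 * ζ) = ζ + K * σ := by rw [hKσ]; ring
      rw [this, hp]
      ring
    have hD : DL ζ γA K k = 2 * γA / ζ * ζ * p * q / (σ * (1 - 99 * ζ) * ((1 - 99 * ζ) - ζ)) := by
      unfold DL
      rw [hp, hq]
      have h100 : (1 : ℝ) - 99 * ζ - ζ = 1 - 100 * ζ := by ring
      rw [h100, ← hσd]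
      have : (1 : ℝ) - 100 * ζ ≠ 0 := by
        have : 0 < 1 - 100 * ζ := by linarith
        exact this.ne'
      field_simp
    have hDpos : 0 < DL ζ γA K k := by
      rw [hD]
      have : 0 < 1 - 99 * ζ - ζ := by linarith
      positivity
    -- the value at one
    have hA1 : 1 - (p - 1 * q) / ((ζ + k * σ) * p - 1 * q * (ζ + (k - 1 : ℝ) * σ)) * ζ =
        1 - ζ / (1 - 99 * ζ) := by
      rw [one_mul, hpq, hS]
      field_simp
    have hnear : ∀ᶠ u in 𝓝 (1 : ℝ), u * q < p := by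
      have : Tendsto (fun u : ℝ => u * q) (𝓝 1) (𝓝 (1 * q)) := tendsto_id.mul_const q
      exact this.eventually_lt_const (by linarith)
    have hterm : ∀ (b u : ℝ), 0 < u → u * q < p →
        -b * Real.log u + (2 * γA / ζ) * Real.log (1 - (p - u * q) /
          ((ζ + k * σ) * p - u * q * (ζ + (k - 1 : ℝ) * σ)) * ζ) <
        -b * Real.log 1 + (2 * γA / ζ) * Real.log (1 - (p - 1 * q) /
          ((ζ + k * σ) * p - 1 * q * (ζ + (k - 1 : ℝ) * σ)) * ζ) →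
        ∀ᶠ L : ℝ in atTop, u ^ (-(b * L)) *
            (1 - c1 (geoL ζ K L) k u * sr (geoL ζ K L)) ^ (nL ζ γA L) ≤
          1 / (4 * K) * cmx (geoL ζ K L) ^ (nL ζ γA L) := by
      intro b u hu huq hlt
      rw [hA1, Real.log_one] at hlt
      obtain ⟨hl, hpos⟩ := L1 u hu huq
      refine NB_term _ _ _ _ _ (2 * γA / ζ) b u _ hpos hB hu hl hcx hn ?_ (by positivity)
      rw [mul_sub]
      linarith
    have dH := NB_deriv ζ σ (1 - 99 * ζ) p q (ζ + (k - 1 : ℝ) * σ) (ζ + k * σ) (2 * γA / ζ)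
      ((1 + ζ) * DL ζ γA K k) hσ hζ (by linarith) hpq hS hκS
    have dL := NB_deriv ζ σ (1 - 99 * ζ) p q (ζ + (k - 1 : ℝ) * σ) (ζ + k * σ) (2 * γA / ζ)
      ((1 - ζ) * DL ζ γA K k) hσ hζ (by linarith) hpq hS hκS
    rw [← hD] at dH dL
    have eH := NB_slope_lt _ _ dH (by nlinarith)
    have eL := NB_slope_gt _ _ dL (by nlinarith)
    obtain ⟨uh, huh1, huh2, huh3⟩ := (eH.and ((hnear.filter_mono nhdsWithin_le_nhds).and
      self_mem_nhdsWithin)).exists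
    have hlt1 : ∀ᶠ u in 𝓝[<] (1 : ℝ), u < 1 := self_mem_nhdsWithin
    have hgt0 : ∀ᶠ u in 𝓝[<] (1 : ℝ), 0 < u :=
      (eventually_gt_nhds (zero_lt_one (α := ℝ))).filter_mono nhdsWithin_le_nhds
    obtain ⟨ul, hul1, hul2, hul3, hul4⟩ := (eL.and ((hnear.filter_mono nhdsWithin_le_nhds).and
      (hlt1.and hgt0))).exists
    refine ⟨uh, ul, fun _ _ => ⟨⟨huh3.le, ?_, ?_⟩, ⟨hul4, hul3.le⟩, ?_⟩⟩
    · have h1 := (t2.const_mul uh).eventually_lt t1 huh2
      filter_upwards [h1, eventually_gt_atTop (0 : ℝ)] with L h2 hL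
      rw [← mul_div_assoc, div_lt_div_iff_of_pos_right hL] at h2
      exact h2
    · exact hterm _ uh (by linarith) huh2 huh1
    · exact hterm _ ul hul4 hul2 hul1
  choose uH uL hu using key
  refine ⟨uH, uL, ?_⟩
  have f1 : ∀ᶠ L : ℝ in atTop, ∀ k ∈ Finset.Ico 1 K,
      uH k * tt (geoL ζ K L) k < tt (geoL ζ K L) (k - 1) := by
    rw [Filter.eventually_all_finset]
    intro k hk
    rw [Finset.mem_Ico] at hk
    exact (hu k hk.1 hk.2).1.2.1
  have f2 : ∀ᶠ L : ℝ in atTop, ∀ k ∈ Finset.Ico 1 K,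
      uH k ^ (-((1 + ζ) * DL ζ γA K k * L)) *
            (1 - c1 (geoL ζ K L) k (uH k) * sr (geoL ζ K L)) ^ (nL ζ γA L) ≤
          1 / (4 * K) * cmx (geoL ζ K L) ^ (nL ζ γA L) := by
    rw [Filter.eventually_all_finset]
    intro k hk
    rw [Finset.mem_Ico] at hk
    exact (hu k hk.1 hk.2).1.2.2
  have f3 : ∀ᶠ L : ℝ in atTop, ∀ k ∈ Finset.Ico 1 K,
      uL k ^ (-((1 - ζ) * DL ζ γA K k * L)) *
            (1 - c1 (geoL ζ K L) k (uL k) * sr (geoL ζ K L)) ^ (nL ζ γA L) ≤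
          1 / (4 * K) * cmx (geoL ζ K L) ^ (nL ζ γA L) := by
    rw [Filter.eventually_all_finset]
    intro k hk
    rw [Finset.mem_Ico] at hk
    exact (hu k hk.1 hk.2).2.2
  filter_upwards [f1, f2, f3, hcx.eventually_const_lt hB] with L g1 g2 g3 g4
  refine ⟨fun k h1 h2 => ⟨(hu k h1 h2).1.1, g1 k (Finset.mem_Ico.2 ⟨h1, h2⟩)⟩,
    fun k h1 h2 => (hu k h1 h2).2.1, ?_⟩
  have hpos : 0 < cmx (geoL ζ K L) ^ (nL ζ γA L) := by positivity
  set c := cmx (geoL ζ K L) ^ (nL ζ γA L) with hc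
  calc ∑ k ∈ Finset.Ico 1 K, (uH k ^ (-((1 + ζ) * DL ζ γA K k * L)) *
            (1 - c1 (geoL ζ K L) k (uH k) * sr (geoL ζ K L)) ^ (nL ζ γA L) +
          uL k ^ (-((1 - ζ) * DL ζ γA K k * L)) *
            (1 - c1 (geoL ζ K L) k (uL k) * sr (geoL ζ K L)) ^ (nL ζ γA L))
      ≤ ∑ _k ∈ Finset.Ico 1 K, (1 / (4 * K) * c + 1 / (4 * K) * c) :=
        Finset.sum_le_sum fun k hk => add_le_add (g2 k hk) (g3 k hk)
    _ = ((K - 1 : ℕ) : ℝ) * (1 / (4 * K) * c + 1 / (4 * K) * c) := by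
        rw [Finset.sum_const, Nat.card_Ico, nsmul_eq_mul]
    _ ≤ (K : ℝ) * (1 / (4 * K) * c + 1 / (4 * K) * c) := by
        have : ((K - 1 : ℕ) : ℝ) ≤ K := by exact_mod_cast Nat.sub_le K 1
        exact mul_le_mul_of_nonneg_right this (by positivity)
    _ = c / 2 := by
        field_simp
        ring

end Pool.Agent.helper32.EB
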