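import Pool.Agent.helper32.EB.Defs2

/-! # Project EB, module NC: counting pairs of centres -/

open MeasureTheory ProbabilityTheory Filter Topology
open scoped ENNReal NNReal

namespace Pool.Agent.helper32.EB

theorem NC_coord (ε A q a : ℝ) (hε : 0 < ε) (hA : A = a / ε) (m n : ℕ)
    (h : |ε * ((m : ℝ) - q) - ε * ((n : ℝ) - q)| ≤ 2 * a) : |((n : ℤ) - (m : ℤ))| ≤ ⌊2 * A⌋ := by
  rw [Int.le_floor]
  push_cast
  have h1 : ε * ((m : ℝ) - q) - ε * ((n : ℝ) - q) = ε * ((m : ℝ) - n) := by ring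
  rw [h1, abs_mul, abs_of_pos hε, abs_sub_comm] at h
  rw [hA, ← mul_div_assoc, le_div_iff₀ hε]
  linarith

theorem pair_count (ζ : ℝ) (K : ℕ) (L : ℝ) (i : Fin (geoL ζ K L).J) (a : ℝ)
    (ha : Real.exp (-L) ≤ a) :
    ((Finset.univ.filter (fun j => ‖(geoL ζ K L).x i - (geoL ζ K L).x j‖ ≤ 2 * a)).card : ℝ) ≤
      25 * (a / Real.exp (-L)) ^ 2 := by
  set M : ℕ := 2 * qL ζ L + 1 with hM
  have hMpos : 0 < M := by omega
  have hε : 0 < Real.exp (-L) := Real.exp_pos _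
  set ε : ℝ := Real.exp (-L) with hεd
  set A : ℝ := a / ε with hA
  have hA1 : 1 ≤ A := by rw [hA, le_div_iff₀ hε]; linarith
  set m : ℤ := ⌊2 * A⌋ with hm
  have hm0 : 0 ≤ m := by
    rw [hm]
    exact Int.floor_nonneg.2 (by linarith)
  have hmle : (m : ℝ) ≤ 2 * A := Int.floor_le _
  let f : Fin (geoL ζ K L).J → ℤ × ℤ := fun j =>
    ((((j : ℕ) / M : ℕ) : ℤ) - (((i : ℕ) / M : ℕ) : ℤ), (((j : ℕ) % M : ℕ) : ℤ) - (((i : ℕ) % M : ℕ) : ℤ))
  have hinj : Function.Injective f := by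
    intro j j' hjj
    have h1 : (((j : ℕ) / M : ℕ) : ℤ) - (((i : ℕ) / M : ℕ) : ℤ) =
        (((j' : ℕ) / M : ℕ) : ℤ) - (((i : ℕ) / M : ℕ) : ℤ) := congrArg Prod.fst hjj
    have h2 : (((j : ℕ) % M : ℕ) : ℤ) - (((i : ℕ) % M : ℕ) : ℤ) =
        (((j' : ℕ) % M : ℕ) : ℤ) - (((i : ℕ) % M : ℕ) : ℤ) := congrArg Prod.snd hjj
    have h3 : ((j : ℕ) / M : ℕ) = ((j' : ℕ) / M : ℕ) := by exact_mod_cast sub_left_inj.1 h1
    have h4 : ((j : ℕ) % M : ℕ) = ((j' : ℕ) % M : ℕ) := by exact_mod_cast sub_left_inj.1 h2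
    apply Fin.ext
    rw [← Nat.div_add_mod (j : ℕ) M, ← Nat.div_add_mod (j' : ℕ) M, h3, h4]
  have hmaps : ∀ j ∈ Finset.univ.filter
      (fun j => ‖(geoL ζ K L).x i - (geoL ζ K L).x j‖ ≤ 2 * a), f j ∈
        (Finset.Icc (-m) m) ×ˢ (Finset.Icc (-m) m) := by
    intro j hj
    rw [Finset.mem_filter] at hj
    have hn := hj.2
    have hre := (Complex.abs_re_le_norm _).trans hn
    have him := (Complex.abs_im_le_norm _).trans hn
    simp only [geoL, Complex.sub_re, Complex.sub_im] at hre him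
    have g1 := NC_coord ε A (qL ζ L : ℝ) a hε hA _ _ hre
    have g2 := NC_coord ε A (qL ζ L : ℝ) a hε hA _ _ him
    rw [Finset.mem_product, Finset.mem_Icc, Finset.mem_Icc]
    exact ⟨abs_le.1 g1, abs_le.1 g2⟩
  have hcard := Finset.card_le_card_of_injOn f hmaps (hinj.injOn)
  rw [Finset.card_product, Int.card_Icc] at hcard
  have hc2 : (((m + 1 - -m).toNat : ℕ) : ℝ) = 2 * m + 1 := by
    have : (((m + 1 - -m).toNat : ℕ) : ℤ) = m + 1 - -m := Int.toNat_of_nonneg (by omega)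
    have h5 : (((m + 1 - -m).toNat : ℕ) : ℝ) = ((m + 1 - -m : ℤ) : ℝ) := by exact_mod_cast this
    rw [h5]
    push_cast
    ring
  calc ((Finset.univ.filter (fun j => ‖(geoL ζ K L).x i - (geoL ζ K L).x j‖ ≤ 2 * a)).card : ℝ)
      ≤ (((m + 1 - -m).toNat * (m + 1 - -m).toNat : ℕ) : ℝ) := by exact_mod_cast hcard
    _ = (2 * m + 1) * (2 * m + 1) := by
      rw [Nat.cast_mul, hc2]
    _ ≤ 25 * A ^ 2 := by
      have hm0' : (0 : ℝ) ≤ m := by exact_mod_cast hm0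
      have h6 : (2 * (m : ℝ) + 1) ≤ 5 * A := by linarith
      calc (2 * (m : ℝ) + 1) * (2 * m + 1) ≤ (5 * A) * (5 * A) :=
            mul_le_mul h6 h6 (by linarith) (by linarith)
        _ = 25 * A ^ 2 := by ring

theorem J_lower (ζ : ℝ) (hζ : 0 < ζ) (hζ' : ζ ≤ 1 / 2000) (K : ℕ) :
    ∀ᶠ L : ℝ in atTop, Real.exp (2 * (1 - 100 * ζ) * L) / 16 ≤ (geoL ζ K L).J := by
  have hc : 0 < 1 - 100 * ζ := by linarith
  filter_upwards [eventually_ge_atTop (2 / (1 - 100 * ζ))] with L hL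
  have h1 : 2 ≤ (1 - 100 * ζ) * L := by
    rw [div_le_iff₀ hc] at hL
    linarith
  set E := Real.exp ((1 - 100 * ζ) * L) with hE
  have hE4 : 4 ≤ E := by
    have h2 : 1 + 1 ≤ Real.exp 1 := Real.add_one_le_exp 1
    have h3 : Real.exp 2 = Real.exp 1 * Real.exp 1 := by rw [← Real.exp_add]; norm_num
    have h4 : Real.exp 2 ≤ E := Real.exp_le_exp.2 h1
    nlinarith
  have hq : E / 4 - 1 < (qL ζ L : ℝ) := by
    unfold qL
    exact Nat.sub_one_lt_floor _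
  have h5 : Real.exp (2 * (1 - 100 * ζ) * L) = E * E := by
    rw [hE, ← Real.exp_add]
    congr 1
    ring
  rw [h5]
  simp only [geoL]
  push_cast
  nlinarith

end Pool.Agent.helper32.EB
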