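import Pool.Agent.helper32.EB.Defs2

/-! # Project EB, module VA: basic facts about the value functions -/

open MeasureTheory ProbabilityTheory Filter Topology
open scoped ENNReal NNReal

namespace Pool.Agent.helper32.EB

theorem VA_updset (G : Geo) (U W : Finset (Fin G.J)) : MeasurableSet {z : ℂ | upd G z U = W} := by
  classical
  have h : {z : ℂ | upd G z U = W} = ⋂ j : Fin G.J, {z : ℂ | (j ∈ U ∧ G.ρ < ‖z - G.x j‖) ↔ j ∈ W} := by
    ext z
    simp only [Set.mem_ofPred_eq, Set.mem_iInter, Finset.ext_iff, upd, Finset.mem_filter]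
  rw [h]
  refine MeasurableSet.iInter fun j => ?_
  have hm : MeasurableSet {z : ℂ | G.ρ < ‖z - G.x j‖} :=
    measurableSet_lt measurable_const (measurable_norm.comp (measurable_id.sub_const _))
  by_cases hU : j ∈ U <;> by_cases hW : j ∈ W
  · simpa [hU, hW] using hm
  · have : {z : ℂ | (j ∈ U ∧ G.ρ < ‖z - G.x j‖) ↔ j ∈ W} = {z : ℂ | G.ρ < ‖z - G.x j‖}ᶜ := by
      ext z
      simp [hU, hW]
    rw [this]
    exact hm.compl
  · simp [hU, hW]
  · simp [hU, hW]

theorem upd_meas (G : Geo) (f : ℂ → Finset (Fin G.J) → ℝ≥0∞) (hf : ∀ U, Measurable (fun z => f z U))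
    (U : Finset (Fin G.J)) : Measurable (fun z => f z (upd G z U)) := by
  classical
  have h : (fun z => f z (upd G z U)) =
      fun z => ∑ W : Finset (Fin G.J), (if upd G z U = W then f z W else 0) := by
    funext z
    rw [Finset.sum_ite_eq]
    simp
  rw [h]
  refine Finset.measurable_sum _ fun W _ => ?_
  exact Measurable.ite (VA_updset G U W) (hf W) measurable_const

theorem FN_meas (G : Geo) (ν : Measure ℂ) [SFinite ν] (V : Finset (Fin G.J) → ℝ≥0∞) (N : ℕ)
    (U : Finset (Fin G.J)) : Measurable (fun z => FN G ν V N z U) := by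
  classical
  have hs : MeasurableSet {z : ℂ | ‖z‖ < G.R'} := measurableSet_lt measurable_norm measurable_const
  induction N generalizing U with
  | zero =>
    simp only [FN]
    exact Measurable.ite hs measurable_const measurable_const
  | succ N ih =>
    simp only [FN]
    refine Measurable.ite hs ?_ measurable_const
    have h1 : Measurable (fun z => FN G ν V N z (upd G z U)) := upd_meas G _ ih U
    have h2 : Measurable (fun p : ℂ × ℂ => FN G ν V N (p.1 + p.2) (upd G (p.1 + p.2) U)) :=
      h1.comp (measurable_fst.add measurable_snd)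
    exact Measurable.lintegral_prod_right' h2

theorem Fv_meas (G : Geo) (ν : Measure ℂ) [SFinite ν] (V : Finset (Fin G.J) → ℝ≥0∞)
    (U : Finset (Fin G.J)) : Measurable (fun z => Fv G ν V z U) := by
  unfold Fv
  exact Measurable.iSup fun N => FN_meas G ν V N U

theorem Fv_out (G : Geo) (ν : Measure ℂ) (V : Finset (Fin G.J) → ℝ≥0∞) (z : ℂ)
    (U : Finset (Fin G.J)) (hz : G.R' ≤ ‖z‖) : Fv G ν V z U = V U := by
  have h : ∀ N, FN G ν V N z U = V U := by
    intro N
    cases N with
    | zero => simp [FN, not_lt.2 hz]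
    | succ N => simp [FN, not_lt.2 hz]
  unfold Fv
  simp [h]

theorem VA_mono (G : Geo) (ν : Measure ℂ) (V : Finset (Fin G.J) → ℝ≥0∞) (N : ℕ) (z : ℂ)
    (U : Finset (Fin G.J)) : FN G ν V N z U ≤ FN G ν V (N + 1) z U := by
  induction N generalizing z U with
  | zero =>
    by_cases hz : ‖z‖ < G.R'
    · simp [FN, hz]
    · simp [FN, hz]
  | succ N ih =>
    rw [FN, FN]
    by_cases hz : ‖z‖ < G.R'
    · rw [if_pos hz, if_pos hz]
      exact lintegral_mono fun y => ih _ _
    · rw [if_neg hz, if_neg hz]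

theorem Fv_in (G : Geo) (ν : Measure ℂ) [IsProbabilityMeasure ν] (V : Finset (Fin G.J) → ℝ≥0∞)
    (z : ℂ) (U : Finset (Fin G.J)) (hz : ‖z‖ < G.R') :
    Fv G ν V z U = ∫⁻ y, Fv G ν V (z + y) (upd G (z + y) U) ∂ν := by
  have hm : ∀ (z : ℂ) (U : Finset (Fin G.J)), Monotone fun N => FN G ν V N z U := fun z U =>
    monotone_nat_of_le_succ fun N => VA_mono G ν V N z U
  have h1 : Fv G ν V z U = ⨆ N, FN G ν V (N + 1) z U := by
    unfold Fv
    exact ((hm z U).iSup_nat_add 1).symm
  rw [h1]
  have h2 : ∀ N, FN G ν V (N + 1) z U = ∫⁻ y, FN G ν V N (z + y) (upd G (z + y) U) ∂ν := by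
    intro N
    rw [FN, if_pos hz]
  simp only [h2]
  unfold Fv
  rw [lintegral_iSup]
  · intro N
    have h3 : Measurable (fun z => FN G ν V N z (upd G z U)) := upd_meas G _ (FN_meas G ν V N) U
    exact h3.comp (measurable_const.add measurable_id)
  · intro a b hab y
    exact hm _ _ hab

end Pool.Agent.helper32.EB
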