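import Pool.Agent.helper6.BT.VA
import Pool.Agent.helper6.BT.LX

/-! # Project EB, module VA2: all small balls already hit -/

open MeasureTheory ProbabilityTheory Filter Topology
open scoped ENNReal NNReal

namespace Pool.Agent.helper32.EB

theorem VA2_upd_empty (G : Geo) (z : ℂ) : upd G z ∅ = ∅ := by
  simp [upd]

theorem VA2_sum (G : Geo) (ν : Measure ℂ) [IsProbabilityMeasure ν]
    (V : Finset (Fin G.J) → ℝ≥0∞) (hV : V ∅ = 1) (N : ℕ) (z : ℂ) :
    FN G ν V N z ∅ + eN G ν N z = 1 := by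
  induction N generalizing z with
  | zero =>
    by_cases hz : ‖z‖ < G.R'
    · rw [FN, eN, if_pos hz, if_pos hz, zero_add]
    · rw [FN, eN, if_neg hz, if_neg hz, add_zero, hV]
  | succ N ih =>
    by_cases hz : ‖z‖ < G.R'
    · rw [FN, eN, if_pos hz, if_pos hz]
      have hm : Measurable (fun y => eN G ν N (z + y)) :=
        (eN_meas G ν N).comp (measurable_const.add measurable_id)
      simp only [VA2_upd_empty]
      rw [← lintegral_add_right _ hm]
      simp [ih]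
    · rw [FN, eN, if_neg hz, if_neg hz, add_zero, hV]

theorem VA2_Fv (G : Geo) (hG : G.OK) {ν : Measure ℂ} (hν : RotStep ν G.h)
    (V : Finset (Fin G.J) → ℝ≥0∞) (hV : V ∅ = 1) (z : ℂ) : Fv G ν V z ∅ = 1 := by
  have := hν.prob
  have hsum := VA2_sum G ν V hV
  apply le_antisymm
  · unfold Fv
    refine iSup_le fun N => ?_
    calc FN G ν V N z ∅ ≤ FN G ν V N z ∅ + eN G ν N z := le_self_add
      _ = 1 := hsum N z
  · by_contra hlt
    rw [not_le] at hlt
    have hle : ∀ N, 1 - Fv G ν V z ∅ ≤ eN G ν N z := by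
      intro N
      rw [tsub_le_iff_left, ← hsum N z]
      gcongr
      unfold Fv
      exact le_iSup (fun N => FN G ν V N z ∅) N
    have hc0 : 1 - Fv G ν V z ∅ ≠ 0 := by
      rw [Ne, tsub_eq_zero_iff_le, not_le]
      exact hlt
    have hs0 : ENNReal.ofReal (∫ y, ‖y‖ ^ 2 ∂ν) ≠ 0 := by
      rw [Ne, ENNReal.ofReal_eq_zero, not_le]
      exact hν.nondeg
    have hbd : ∀ N : ℕ, (N : ℝ≥0∞) * (ENNReal.ofReal (∫ y, ‖y‖ ^ 2 ∂ν) * (1 - Fv G ν V z ∅)) ≤
        ENNReal.ofReal ((G.R' + G.h) ^ 2) := by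
      intro N
      calc (N : ℝ≥0∞) * (ENNReal.ofReal (∫ y, ‖y‖ ^ 2 ∂ν) * (1 - Fv G ν V z ∅))
          = N * ENNReal.ofReal (∫ y, ‖y‖ ^ 2 ∂ν) * (1 - Fv G ν V z ∅) := by rw [mul_assoc]
        _ ≤ N * ENNReal.ofReal (∫ y, ‖y‖ ^ 2 ∂ν) * eN G ν N z := by gcongr; exact hle N
        _ ≤ _ := eN_bound G hG hν z N
    set a := ENNReal.ofReal (∫ y, ‖y‖ ^ 2 ∂ν) * (1 - Fv G ν V z ∅) with ha
    have ha0 : a ≠ 0 := mul_ne_zero hs0 hc0
    have hat : a ≠ ⊤ := ENNReal.mul_ne_top ENNReal.ofReal_ne_top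
      (ne_top_of_le_ne_top ENNReal.one_ne_top tsub_le_self)
    obtain ⟨N, hN⟩ := ENNReal.exists_nat_mul_gt ha0 (ENNReal.ofReal_ne_top (r := (G.R' + G.h) ^ 2))
    exact absurd (hbd N) (not_le.2 hN)

theorem VA2_rpos (G : Geo) (hG : G.OK) : 0 < G.r := by
  have h1 : ∀ k, k ≤ G.K → 0 < G.R (G.K - k) := by
    intro k
    induction k with
    | zero =>
      intro _
      rw [Nat.sub_zero, hG.RK]
      linarith [hG.hpos, hG.hρ]
    | succ k ih =>
      intro hk
      have h2 := ih (by omega)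
      have h3 := hG.dec (G.K - (k + 1)) (by omega)
      have h4 : G.K - (k + 1) + 1 = G.K - k := by omega
      rw [h4] at h3
      linarith
  have h5 := h1 G.K le_rfl
  rw [Nat.sub_self, hG.R0] at h5
  linarith

theorem Fv_empty (G : Geo) (hG : G.OK) {ν : Measure ℂ} (hν : RotStep ν G.h) (m : ℕ) (z : ℂ) :
    Vv G ν m ∅ = 1 ∧ Fv G ν (Vv G ν m) z ∅ = 1 := by
  have hV : ∀ m, Vv G ν m ∅ = 1 := by
    intro m
    induction m with
    | zero => simp [Vv]
    | succ m ih =>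
      rw [Vv]
      simp only [VA2_upd_empty, VA2_Fv G hG hν _ ih]
      apply le_antisymm
      · exact iSup₂_le fun _ _ => le_rfl
      · have hr := VA2_rpos G hG
        have hn : ‖(G.r : ℂ)‖ = G.r := by
          rw [Complex.norm_real, Real.norm_eq_abs, abs_of_pos hr]
        refine le_iSup₂_of_le (G.r : ℂ) ?_ le_rfl
        rw [hn]
        constructor
        · linarith [hG.hpos]
        · exact le_rfl
  exact ⟨hV m, VA2_Fv G hG hν _ (hV m) z⟩

end Pool.Agent.helper32.EB
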